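import Pool.Agent.K1H17.SC.Stm

/-! Project SC (owner helper17), piece SC-5: combinatorics of the admissible vectors of weight less
than one. -/

set_option autoImplicit false

namespace Pool.Agent.K1H52.SC

open Pool.Agent.K1H17.SC

theorem dvd_of_two_three {m A : ℤ} (h2 : m ∣ A * 2) (h3 : m ∣ A * 3) : m ∣ A := by
  have h := dvd_sub h3 h2
  have e : A * 3 - A * 2 = A := by ring
  rwa [e] at h

/-- the case of the degrees `(3, 4)` or `(3, 5)` -/
theorem dvd_mixed {m A B : ℤ} {e : ℕ} (hs : m ∣ A + B) (hA : m ∣ A * 3) (hB : m ∣ B * e)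
    (he : e = 4 ∨ e = 5) : m ∣ B := by
  have h3 : m ∣ B * 3 := by
    have h := dvd_sub (dvd_mul_of_dvd_left hs 3) hA
    have e' : (A + B) * 3 - A * 3 = B * 3 := by ring
    rwa [e'] at h
  rcases he with he | he
  · subst he
    have h := dvd_sub hB h3
    have e' : B * ((4 : ℕ) : ℤ) - B * 3 = B := by push_cast; ring
    rwa [e'] at h
  · subst he
    have h := dvd_sub (dvd_mul_of_dvd_left h3 2) hB
    have e' : B * 3 * 2 - B * ((5 : ℕ) : ℤ) = B := by push_cast; ring
    rwa [e'] at h

theorem small_degrees {p r : ℕ} (hp : 3 ≤ p) (hr : 3 ≤ r)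
    (h : (1 - 2 / (p : ℚ)) + (1 - 2 / (r : ℚ)) < 1) :
    (p = 3 ∧ r = 3) ∨ (p = 3 ∧ (r = 4 ∨ r = 5)) ∨ (r = 3 ∧ (p = 4 ∨ p = 5)) := by
  have key : ∀ {x : ℕ} (c : ℕ), 0 < c → c ≤ x → 2 / (x : ℚ) ≤ 2 / c := by
    intro x c hc hx
    apply div_le_div_of_nonneg_left (by norm_num) (by exact_mod_cast hc) (by exact_mod_cast hx)
  have hp3 := key 3 (by norm_num) hp
  have hr3 := key 3 (by norm_num) hr
  push_cast at hp3 hr3
  have hp6 : p < 6 := by
    by_contra hc
    have := key 6 (by norm_num) (not_lt.mp hc)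
    push_cast at this
    linarith
  have hr6 : r < 6 := by
    by_contra hc
    have := key 6 (by norm_num) (not_lt.mp hc)
    push_cast at this
    linarith
  have hpr : p = 3 ∨ r = 3 := by
    by_contra hc
    push Not at hc
    have h1 := key (x := p) 4 (by norm_num) (by omega)
    have h2 := key (x := r) 4 (by norm_num) (by omega)
    push_cast at h1 h2
    linarith
  omega

theorem t_CMB : S_CMB := by
  intro ι T s d A m hm hd hdvd v ⟨a, haT, hva⟩ hv hsum
  classical
  by_cases h2 : ∃ i ∈ T, d i ≤ 2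
  · exact Or.inl h2
  right
  push Not at h2
  have hd3 : ∀ i ∈ T, (3 : ℚ) ≤ d i := fun i hi => by exact_mod_cast h2 i hi
  have hw : ∀ i ∈ T, (v i : ℚ) / 3 ≤ v i * (1 - 2 / d i) := by
    intro i hi
    have h3 := hd3 i hi
    have h4 : 2 / (d i : ℚ) ≤ 2 / 3 := div_le_div_of_nonneg_left (by norm_num) (by norm_num) h3
    have hv0 : (0 : ℚ) ≤ v i := Nat.cast_nonneg _
    nlinarith
  have hS : ∑ i ∈ T, v i < 3 := by
    have h := Finset.sum_le_sum hw
    rw [← Finset.sum_div] at h
    have h' : ((∑ i ∈ T, v i : ℕ) : ℚ) < 3 := by push_cast; linarith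
    exact_mod_cast h'
  have hE := Finset.add_sum_erase T v haT
  by_cases h0 : ∀ i ∈ T.erase a, v i = 0
  · left
    refine ⟨a, haT, fun j => ?_⟩
    have hj := hv j
    rw [← Finset.add_sum_erase T _ haT,
      Finset.sum_eq_zero (s := T.erase a) (fun i hi => by rw [h0 i hi]; simp), add_zero] at hj
    have hva2 : v a = 1 ∨ v a = 2 := by
      have := Finset.sum_eq_zero h0
      omega
    rcases hva2 with h1 | h1
    · rw [h1] at hj
      simpa using hj
    · rw [← Finset.add_sum_erase T _ haT,
        Finset.sum_eq_zero (s := T.erase a) (fun i hi => by rw [h0 i hi]; simp), add_zero, h1] at hsum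
      have h3 := hd3 a haT
      have hda : d a = 3 := by
        have hlt : (d a : ℚ) < 4 := by
          by_contra hc
          push Not at hc
          have h5 : 2 / (d a : ℚ) ≤ 2 / 4 := div_le_div_of_nonneg_left (by norm_num) (by norm_num) hc
          push_cast at hsum
          linarith
        have h4 : d a < 4 := by exact_mod_cast hlt
        have := h2 a haT
        omega
      have h5 := hdvd j a haT
      rw [hda] at h5
      rw [h1] at hj
      exact dvd_of_two_three hj h5
  · push Not at h0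
    obtain ⟨b, hb, hvb⟩ := h0
    have hE2 := Finset.add_sum_erase (T.erase a) v hb
    have hbT : b ∈ T := Finset.mem_of_mem_erase hb
    have hab : a ≠ b := (Finset.ne_of_mem_erase hb).symm
    have hrest : ∀ i ∈ (T.erase a).erase b, v i = 0 := by
      have : ∑ i ∈ (T.erase a).erase b, v i = 0 := by omega
      exact fun i hi => (Finset.sum_eq_zero_iff.mp this) i hi
    have hva1 : v a = 1 := by omega
    have hvb1 : v b = 1 := by omega
    have hj : ∀ j, (m j : ℤ) ∣ A j a + A j b := by
      intro j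
      have hj := hv j
      rw [← Finset.add_sum_erase T _ haT, ← Finset.add_sum_erase (T.erase a) _ hb,
        Finset.sum_eq_zero (s := (T.erase a).erase b) (fun i hi => by rw [hrest i hi]; simp),
        add_zero, hva1, hvb1] at hj
      simpa using hj
    rw [← Finset.add_sum_erase T _ haT, ← Finset.add_sum_erase (T.erase a) _ hb,
      Finset.sum_eq_zero (s := (T.erase a).erase b) (fun i hi => by rw [hrest i hi]; simp),
      add_zero, hva1, hvb1, Nat.cast_one, one_mul, one_mul] at hsum
    rcases small_degrees (h2 a haT) (h2 b hbT) hsum with ⟨h3, h4⟩ | ⟨h3, h4⟩ | ⟨h3, h4⟩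
    · exact Or.inr ⟨a, haT, b, hbT, hab, h3, h4, hj⟩
    · refine Or.inl ⟨b, hbT, fun j => ?_⟩
      have h5 := hdvd j a haT
      rw [h3] at h5
      exact dvd_mixed (hj j) h5 (hdvd j b hbT) h4
    · refine Or.inl ⟨a, haT, fun j => ?_⟩
      have h5 := hdvd j b hbT
      rw [h3] at h5
      exact dvd_mixed (by rw [add_comm]; exact hj j) h5 (hdvd j a haT) h4

end Pool.Agent.K1H52.SC
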